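import Pool.Agent.R221.FB.Main

/-!
Full answer to Q1 and Q2 of MP_5dec12_pr: every decomposable (forward) Brownian motion which is a
backward Brownian motion is a two-sided Brownian motion; the same if the time reversal is
decomposable.  Definitions (`IsBMFor`, `Pieces`, `Decomposable`, `IsFBM`, `IsBBM`, `Is2BM`) are in
`Pool/Agent/R221/FB/Defs.lean`.

The random time of the conclusion lives on the extension `Ω × [0,1]` (first part), or on `Ω` itself
as soon as `Ω` carries a uniform variable independent of `X` (second part).
-/

namespace Pool.Agent.Results.MP_5dec12_pr.DecomposableIs2BM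
open MeasureTheory ProbabilityTheory
open Pool.Agent.R221.FB

universe u v

/-- Q1 and Q2, both affirmative. -/
theorem result :
    (∀ {Ω : Type u} [MeasurableSpace Ω] (P : Measure Ω) [IsProbabilityMeasure P] (X : ℝ → Ω → ℝ),
      (∀ t, Measurable (X t)) → (∀ ω, Continuous fun t => X t ω) →
      Decomposable.{u, v} P X → IsBBM P X →
      Is2BM (P.prod (volume : Measure unitInterval)) (fun t z => X t z.1) ∧
      ∀ V : Ω → unitInterval, Measurable V → P.map V = volume →
        IndepFun (fun ω (t : ℝ) => X t ω) V P → Is2BM P X) ∧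
    (∀ {Ω : Type u} [MeasurableSpace Ω] (P : Measure Ω) [IsProbabilityMeasure P] (X : ℝ → Ω → ℝ),
      (∀ t, Measurable (X t)) → (∀ ω, Continuous fun t => X t ω) →
      Decomposable.{u, v} P X → Decomposable.{u, v} P (fun t => X (-t)) →
      Is2BM (P.prod (volume : Measure unitInterval)) (fun t z => X t z.1) ∧
      ∀ V : Ω → unitInterval, Measurable V → P.map V = volume →
        IndepFun (fun ω (t : ℝ) => X t ω) V P → Is2BM P X) := by
  refine ⟨?_, ?_⟩
  · intro Ω _ P _ X hX hc hD hB
    exact both hX hc hD fun W hW N hN hN0 => back_of_BBM hX hc hB hW hN hN0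
  · intro Ω _ P _ X hX hc hD hB
    exact both hX hc hD fun W hW N hN hN0 => back_of_dec.{u, v} hX hc hB hW hN hN0

end Pool.Agent.Results.MP_5dec12_pr.DecomposableIs2BM
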